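import Pool.Agent.Helper97.Nag.Goals1

/-!
PROJECT UN (MP_d3128a_ag), the counts (helper80). The rows with at least `s` points of the triangle
`InT d rho`, for every real `rho ≥ 0`: they are the integers of a disjoint union of open intervals
(the teeth). `t = d/3`, `c = rho + 9`, `A = t - s c/9`, `B = t - (s-1) c/9`.
-/

set_option autoImplicit false

noncomputable section

namespace Pool.Agent.Helper80.UN.CNT

open Pool.Agent.Helper97.Nag

/-! ### integers of open intervals -/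

/-- the integers of the open interval `(a, b)` -/
def opn (a b : ℝ) : Finset ℤ := Finset.Ioo ⌊a⌋ ⌈b⌉

theorem mem_opn (a b : ℝ) (X : ℤ) : X ∈ opn a b ↔ a < X ∧ (X : ℝ) < b := by
  unfold opn
  rw [Finset.mem_Ioo, Int.floor_lt, Int.lt_ceil]

theorem card_opn_lt (a b : ℝ) (h : a < b) : ((opn a b).card : ℝ) < b - a + 1 := by
  unfold opn
  rw [Int.card_Ioo]
  have h1 : (⌈b⌉ : ℝ) < b + 1 := Int.ceil_lt_add_one b
  have h2 : a - 1 < (⌊a⌋ : ℝ) := Int.sub_one_lt_floor a
  rcases le_or_gt 0 (⌈b⌉ - ⌊a⌋ - 1) with h3 | h3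
  · have h4 : (((⌈b⌉ - ⌊a⌋ - 1).toNat : ℕ) : ℝ) = ((⌈b⌉ - ⌊a⌋ - 1 : ℤ) : ℝ) := by
      have := Int.toNat_of_nonneg h3
      exact_mod_cast this
    rw [h4]
    push_cast
    linarith
  · rw [Int.toNat_of_nonpos h3.le]
    simp only [Nat.cast_zero]
    linarith

theorem card_opn_ge (a b : ℝ) : b - a - 1 ≤ ((opn a b).card : ℝ) := by
  unfold opn
  rw [Int.card_Ioo]
  have h1 : b ≤ (⌈b⌉ : ℝ) := Int.le_ceil b
  have h2 : (⌊a⌋ : ℝ) ≤ a := Int.floor_le a
  have h3 : (⌈b⌉ - ⌊a⌋ - 1 : ℤ) ≤ (((⌈b⌉ - ⌊a⌋ - 1).toNat : ℕ) : ℤ) := Int.self_le_toNat _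
  have h4 : ((⌈b⌉ - ⌊a⌋ - 1 : ℤ) : ℝ) ≤ (((⌈b⌉ - ⌊a⌋ - 1).toNat : ℕ) : ℝ) := by exact_mod_cast h3
  push_cast at h4
  linarith

/-! ### rows and teeth -/

/-- a row of `lnv S s` lies in a tooth, or is the apex -/
theorem tooth (d s : ℕ) (rho : ℝ) (h0 : 0 ≤ rho) (hs : 1 ≤ s) (S : Finset (ℤ × ℤ))
    (hS : ∀ q ∈ S, ∃ j : ℕ, q.1 = j ∧ InT d rho j q.2) (X : ℤ) (hX : X ∈ lnv S s) :
    (∃ i : ℕ, rho * ((d : ℝ) / 3 - i) < X ∧ (X : ℝ) < (rho + 9) * ((d : ℝ) / 3 - i - (s - 1))) ∨
      (s = 1 ∧ X = 0 ∧ 3 ∣ d) := by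
  classical
  unfold lnv at hX
  rw [Finset.mem_filter] at hX
  have hcard := hX.2
  set R := S.filter fun q => q.2 = X with hR
  -- the row as a set of naturals
  set J : Finset ℕ := R.image fun q => q.1.toNat with hJ
  have hmem : ∀ j ∈ J, InT d rho j X := by
    intro j hj
    rw [hJ, Finset.mem_image] at hj
    obtain ⟨q, hq, rfl⟩ := hj
    rw [hR, Finset.mem_filter] at hq
    obtain ⟨j, hj1, hj2⟩ := hS q hq.1
    rw [hj1, Int.toNat_natCast, ← hq.2]
    exact hj2
  have hJcard : J.card = R.card := by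
    rw [hJ]
    apply Finset.card_image_of_injOn
    intro q hq q' hq' h
    rw [Finset.mem_coe, hR, Finset.mem_filter] at hq hq'
    obtain ⟨j, hj1, _⟩ := hS q hq.1
    obtain ⟨j', hj1', _⟩ := hS q' hq'.1
    simp only at h
    rw [hj1, hj1', Int.toNat_natCast, Int.toNat_natCast] at h
    apply Prod.ext
    · rw [hj1, hj1', h]
    · rw [hq.2, hq'.2]
  rw [← hJcard] at hcard
  have hne : J.Nonempty := by
    rw [← Finset.card_pos]
    omega
  have hmin := Finset.min'_mem J hne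
  have hmax := Finset.max'_mem J hne
  set i := J.min' hne with hi
  set k := J.max' hne with hk
  have hspan : i + (s - 1) ≤ k := by
    have h1 : J ⊆ Finset.Icc i k := by
      intro j hj
      rw [Finset.mem_Icc]
      exact ⟨Finset.min'_le J j hj, Finset.le_max' J j hj⟩
    have h2 := Finset.card_le_card h1
    rw [Nat.card_Icc] at h2
    have h3 : i ≤ k := Finset.min'_le J k hmax
    omega
  have hk' : ((i : ℝ) + (s - 1)) ≤ k := by
    have : ((i + (s - 1) : ℕ) : ℝ) ≤ k := by exact_mod_cast hspan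
    rw [Nat.cast_add, Nat.cast_sub hs] at this
    simpa using this
  have hc : 0 < rho + 9 := by linarith
  have hA := hmem i hmin
  have hB := hmem k hmax
  unfold InT at hA hB
  rcases hA with ⟨ha1, ha2, ha3⟩ | ⟨ha1, ha2⟩
  · rcases hB with ⟨hb1, hb2, hb3⟩ | ⟨hb1, hb2⟩
    · left
      refine ⟨i, ha2, lt_of_lt_of_le hb3 ?_⟩
      apply mul_le_mul_of_nonneg_left _ hc.le
      linarith
    · exfalso
      rw [hb2] at ha2
      have h1 : (3 : ℝ) * i < d := by exact_mod_cast ha1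
      have h2 : 0 ≤ rho * ((d : ℝ) / 3 - i) := mul_nonneg h0 (by linarith)
      simp only [Int.cast_zero] at ha2
      linarith
  · rcases hB with ⟨hb1, hb2, hb3⟩ | ⟨hb1, hb2⟩
    · exfalso
      have h3 : i ≤ k := Finset.min'_le J k hmax
      omega
    · right
      refine ⟨?_, ha2, ⟨i, ha1.symm⟩⟩
      omega

/-- a tooth consists of rows of `lnv S s` -/
theorem tooth_sub (d s : ℕ) (rho : ℝ) (h0 : 0 ≤ rho) (hs : 1 ≤ s) (S : Finset (ℤ × ℤ))
    (hS : ∀ (j : ℕ) (n : ℤ), 3 * j < d → InT d rho j n → ((j : ℤ), n) ∈ S) (X : ℤ) (i : ℕ)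
    (h1 : rho * ((d : ℝ) / 3 - i) < X) (h2 : (X : ℝ) < (rho + 9) * ((d : ℝ) / 3 - i - (s - 1))) :
    X ∈ lnv S s := by
  classical
  have hc : 0 < rho + 9 := by linarith
  have hX0 : (0 : ℝ) ≤ X := by
    by_contra hcon
    push Not at hcon
    -- then t - i < 0 by h1 (or rho = 0), contradiction with h2
    rcases h0.lt_or_eq with hr | hr
    · have h3 : (d : ℝ) / 3 - i < 0 := by
        by_contra h4
        push Not at h4
        have := mul_nonneg h0 h4
        linarith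
      have h5 : (1 : ℝ) ≤ s := by exact_mod_cast hs
      have h6 : (rho + 9) * ((d : ℝ) / 3 - i - (s - 1)) ≤ (rho + 9) * ((d : ℝ) / 3 - i) :=
        mul_le_mul_of_nonneg_left (by linarith) hc.le
      nlinarith
    · rw [← hr] at h1
      linarith
  have hpt : ∀ i' : ℕ, i' < s → (((i + i' : ℕ) : ℤ), X) ∈ S := by
    intro i' hi'
    have h5 : (i' : ℝ) ≤ s - 1 := by
      have : ((i' + 1 : ℕ) : ℝ) ≤ s := by exact_mod_cast hi'
      push_cast at this
      linarith
    have h6 : (X : ℝ) < (rho + 9) * ((d : ℝ) / 3 - ((i + i' : ℕ) : ℝ)) := by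
      refine lt_of_lt_of_le h2 ?_
      apply mul_le_mul_of_nonneg_left _ hc.le
      push_cast
      linarith
    have h7 : rho * ((d : ℝ) / 3 - ((i + i' : ℕ) : ℝ)) < X := by
      refine lt_of_le_of_lt ?_ h1
      apply mul_le_mul_of_nonneg_left _ h0
      push_cast
      have : (0 : ℝ) ≤ i' := by positivity
      linarith
    have h8 : 3 * (i + i') < d := by
      have h9 : 0 < (d : ℝ) / 3 - ((i + i' : ℕ) : ℝ) := by
        by_contra hcon
        push Not at hcon
        have := mul_nonpos_of_nonneg_of_nonpos hc.le hcon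
        linarith
      have h10 : (3 : ℝ) * ((i + i' : ℕ) : ℝ) < d := by linarith
      exact_mod_cast h10
    exact hS (i + i') X h8 (Or.inl ⟨h8, h7, h6⟩)
  unfold lnv
  rw [Finset.mem_filter]
  have hsub : (Finset.range s).image (fun i' : ℕ => (((i + i' : ℕ) : ℤ), X)) ⊆
      S.filter fun q => q.2 = X := by
    intro q hq
    rw [Finset.mem_image] at hq
    obtain ⟨i', hi', rfl⟩ := hq
    rw [Finset.mem_filter]
    exact ⟨hpt i' (Finset.mem_range.mp hi'), rfl⟩
  have hcard : ((Finset.range s).image (fun i' : ℕ => (((i + i' : ℕ) : ℤ), X))).card = s := by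
    rw [Finset.card_image_of_injective]
    · exact Finset.card_range s
    · intro a a' haa
      have := congrArg Prod.fst haa
      simp only at this
      omega
  refine ⟨?_, ?_⟩
  · rw [Finset.mem_image]
    exact ⟨(((i + 0 : ℕ) : ℤ), X), hpt 0 (by omega), rfl⟩
  · calc s = ((Finset.range s).image (fun i' : ℕ => (((i + i' : ℕ) : ℤ), X))).card := hcard.symm
      _ ≤ (S.filter fun q => q.2 = X).card := Finset.card_le_card hsub

/-! ### the pieces -/

/-- the tooth `i` -/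
def tth (d s : ℕ) (rho : ℝ) (i : ℕ) : Finset ℤ :=
  opn (rho * ((d : ℝ) / 3 - i)) ((rho + 9) * ((d : ℝ) / 3 - i - (s - 1)))

/-- the union of the teeth `0, ..., I` -/
def big (d s : ℕ) (rho : ℝ) (I : ℕ) : Finset ℤ :=
  opn (rho * ((d : ℝ) / 3 - I)) ((rho + 9) * ((d : ℝ) / 3 - (s - 1)))

/-- the small teeth `I + 1, ..., K - 1` -/
def sml (d s : ℕ) (rho : ℝ) (I K : ℕ) : Finset ℤ :=
  (Finset.Ioo I K).biUnion fun i => tth d s rho i

/-- the length of the tooth `i` is `9 (B - i)` -/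
theorem tooth_len (d s : ℕ) (rho : ℝ) (i : ℕ) :
    (rho + 9) * ((d : ℝ) / 3 - i - (s - 1)) - rho * ((d : ℝ) / 3 - i) =
      9 * (((d : ℝ) / 3 - (s - 1) * (rho + 9) / 9) - i) := by
  ring

/-- sum of the lengths of the small teeth -/
theorem sum_len (B : ℝ) (I K : ℕ) (h : I < K) :
    ∑ i ∈ Finset.Ioo I K, 9 * (B - (i : ℝ)) =
      9 * (((K : ℝ) - 1 - I) * (B - I) - ((K : ℝ) - 1 - I) * ((K : ℝ) - I) / 2) := by
  induction K, h using Nat.le_induction with
  | base =>
    have : Finset.Ioo I (I + 1) = ∅ := by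
      ext x
      simp only [Finset.mem_Ioo, Finset.notMem_empty, iff_false]
      omega
    rw [this, Finset.sum_empty]
    push_cast
    ring
  | succ K hK ih =>
    have h1 : Finset.Ioo I (K + 1) = insert K (Finset.Ioo I K) := by
      ext x
      simp only [Finset.mem_Ioo, Finset.mem_insert]
      omega
    rw [h1, Finset.sum_insert (by simp), ih]
    push_cast
    ring

/-- the exact length of all the pieces -/
theorem total_len (t rho s I K : ℝ) :
    (rho + 9) * (t - (s - 1)) - rho * (t - I) +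
      9 * ((K - 1 - I) * ((t - (s - 1) * (rho + 9) / 9) - I) - (K - 1 - I) * (K - I) / 2) =
    (rho + 9) * (t + 1) - s * (rho + 9) ^ 2 / 9 + rho * (rho + 9) / 18 +
      9 / 2 * (((t - (s - 1) * (rho + 9) / 9) - K + 1) * (K - (t - (s - 1) * (rho + 9) / 9)) -
        ((t - s * (rho + 9) / 9) - I + 1) * (I - (t - s * (rho + 9) / 9))) := by
  ring

/-- the mean value of the number of rows with at least `s` points -/
def Lst (d s : ℕ) (rho : ℝ) : ℝ :=
  (rho + 9) * ((d : ℝ) / 3 + 1) - s * (rho + 9) ^ 2 / 9 + rho * (rho + 9) / 18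

theorem ceil_gap (A c : ℝ) : ⌈A + c⌉₊ ≤ ⌈A⌉₊ + ⌈c⌉₊ := by
  apply Nat.ceil_le.2
  push_cast
  have h1 := Nat.le_ceil A
  have h2 := Nat.le_ceil c
  linarith

/-- the upper bound -/
theorem upper (d s : ℕ) (rho : ℝ) (h0 : 0 ≤ rho) (hs : 1 ≤ s) (hA : (s : ℝ) * (rho + 9) ≤ 3 * d)
    (S : Finset (ℤ × ℤ)) (hS : ∀ q ∈ S, ∃ j : ℕ, q.1 = j ∧ InT d rho j q.2) :
    ((lnv S s).card : ℝ) < Lst d s rho + 9 / 8 + (⌈(rho + 9) / 9⌉₊ : ℝ) := by
  classical
  have hc : 0 < rho + 9 := by linarith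
  set A : ℝ := (d : ℝ) / 3 - s * (rho + 9) / 9 with hAdef
  set B : ℝ := (d : ℝ) / 3 - (s - 1) * (rho + 9) / 9 with hBdef
  have hAB : B = A + (rho + 9) / 9 := by rw [hAdef, hBdef]; ring
  have hA0 : 0 ≤ A := by rw [hAdef]; linarith
  have hB0 : 0 < B := by rw [hAB]; linarith
  set I := ⌈A⌉₊ with hI
  set K := ⌈B⌉₊ with hK
  have hI1 : A ≤ I := Nat.le_ceil A
  have hI2 : (I : ℝ) < A + 1 := Nat.ceil_lt_add_one hA0
  have hK1 : B ≤ K := Nat.le_ceil B
  have hK2 : (K : ℝ) < B + 1 := Nat.ceil_lt_add_one hB0.le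
  have hIK : I < K := by
    have : (I : ℝ) < K := by
      have : (1 : ℝ) ≤ (rho + 9) / 9 := by rw [le_div_iff₀ (by norm_num)]; linarith
      linarith
    exact_mod_cast this
  have hKI : K ≤ I + ⌈(rho + 9) / 9⌉₊ := by
    rw [hK, hAB]
    exact ceil_gap A _
  have hKI' : (K : ℝ) ≤ I + (⌈(rho + 9) / 9⌉₊ : ℝ) := by exact_mod_cast hKI
  -- the rows
  have hsub : lnv S s ⊆ big d s rho I ∪ sml d s rho I K ∪ (if s = 1 ∧ 3 ∣ d then {0} else ∅) := by
    intro X hX
    rcases tooth d s rho h0 hs S hS X hX with ⟨i, h1, h2⟩ | ⟨h1, h2, h3⟩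
    · rw [Finset.mem_union, Finset.mem_union]
      left
      by_cases hi : i ≤ I
      · left
        unfold big
        rw [mem_opn]
        have hi' : (i : ℝ) ≤ I := by exact_mod_cast hi
        refine ⟨lt_of_le_of_lt ?_ h1, lt_of_lt_of_le h2 ?_⟩
        · apply mul_le_mul_of_nonneg_left _ h0
          linarith
        · apply mul_le_mul_of_nonneg_left _ hc.le
          have : (0 : ℝ) ≤ i := by positivity
          linarith
      · right
        unfold sml
        rw [Finset.mem_biUnion]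
        refine ⟨i, ?_, ?_⟩
        · rw [Finset.mem_Ioo]
          refine ⟨by omega, ?_⟩
          rw [hK, Nat.lt_ceil]
          have h3 := tooth_len d s rho i
          rw [← hBdef] at h3
          have h4 : rho * ((d : ℝ) / 3 - i) < (rho + 9) * ((d : ℝ) / 3 - i - (s - 1)) := h1.trans h2
          linarith
        · unfold tth
          rw [mem_opn]
          exact ⟨h1, h2⟩
    · rw [Finset.mem_union]
      right
      rw [if_pos ⟨h1, h3⟩, h2]
      exact Finset.mem_singleton_self _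
  have hcard : (lnv S s).card ≤ (big d s rho I).card + (sml d s rho I K).card +
      (if s = 1 ∧ 3 ∣ d then 1 else 0) := by
    refine (Finset.card_le_card hsub).trans ((Finset.card_union_le _ _).trans ?_)
    refine Nat.add_le_add (Finset.card_union_le _ _) ?_
    split_ifs
    · simp
    · simp
  have hbig : ((big d s rho I).card : ℝ) <
      (rho + 9) * ((d : ℝ) / 3 - (s - 1)) - rho * ((d : ℝ) / 3 - I) + 1 := by
    unfold big
    apply card_opn_lt
    have h1 : rho * ((d : ℝ) / 3 - I) ≤ rho * ((d : ℝ) / 3) := by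
      apply mul_le_mul_of_nonneg_left _ h0
      have : (0 : ℝ) ≤ I := by positivity
      linarith
    have h2 : (rho + 9) * ((d : ℝ) / 3 - (s - 1)) - rho * ((d : ℝ) / 3) = 9 * B := by
      rw [hBdef]; ring
    linarith
  have hsml : ((sml d s rho I K).card : ℝ) ≤
      ∑ i ∈ Finset.Ioo I K, 9 * (B - (i : ℝ)) + ((K : ℝ) - 1 - I) := by
    have h1 : ((sml d s rho I K).card : ℝ) ≤ ∑ i ∈ Finset.Ioo I K, ((tth d s rho i).card : ℝ) := by
      have : (sml d s rho I K).card ≤ ∑ i ∈ Finset.Ioo I K, (tth d s rho i).card :=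
        Finset.card_biUnion_le
      exact_mod_cast this
    have h2 : ∑ i ∈ Finset.Ioo I K, ((tth d s rho i).card : ℝ) ≤
        ∑ i ∈ Finset.Ioo I K, (9 * (B - (i : ℝ)) + 1) := by
      apply Finset.sum_le_sum
      intro i hi
      rw [Finset.mem_Ioo] at hi
      have h3 : (i : ℝ) < B := by
        rw [← Nat.lt_ceil]
        exact hi.2
      have h4 := tooth_len d s rho i
      rw [← hBdef] at h4
      unfold tth
      have h5 := card_opn_lt (rho * ((d : ℝ) / 3 - i)) ((rho + 9) * ((d : ℝ) / 3 - i - (s - 1)))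
        (by linarith)
      linarith
    rw [Finset.sum_add_distrib] at h2
    have h6 : ∑ i ∈ Finset.Ioo I K, (1 : ℝ) = (K : ℝ) - 1 - I := by
      rw [Finset.sum_const, Nat.card_Ioo, nsmul_eq_mul, mul_one]
      rw [Nat.sub_sub, Nat.cast_sub (by omega)]
      push_cast
      ring
    rw [h6] at h2
    exact h1.trans h2
  rw [sum_len B I K hIK] at hsml
  have htot := total_len ((d : ℝ) / 3) rho s I K
  rw [← hBdef, ← hAdef] at htot
  have hx1 : 0 < B - K + 1 := by linarith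
  have hx2 : B - K + 1 ≤ 1 := by linarith
  have hy1 : 0 < A - I + 1 := by linarith
  have hy2 : A - I + 1 ≤ 1 := by linarith
  have hy3 : 0 ≤ (A - I + 1) * (I - A) := mul_nonneg hy1.le (by linarith)
  have hL : Lst d s rho = (rho + 9) * ((d : ℝ) / 3 + 1) - s * (rho + 9) ^ 2 / 9 +
    rho * (rho + 9) / 18 := rfl
  have hcard' : ((lnv S s).card : ℝ) ≤ ((big d s rho I).card : ℝ) + ((sml d s rho I K).card : ℝ) +
      (((if s = 1 ∧ 3 ∣ d then 1 else 0 : ℕ)) : ℝ) := by exact_mod_cast hcard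
  by_cases hap : s = 1 ∧ 3 ∣ d
  · rw [if_pos hap] at hcard'
    obtain ⟨hs1, k, hk⟩ := hap
    have hBk : B = k := by
      rw [hBdef, hs1, hk]
      push_cast
      ring
    have hKk : (K : ℝ) = k := by
      have : K = k := by rw [hK, hBk, Nat.ceil_natCast]
      exact_mod_cast this
    have hxx : (B - K + 1) * (K - B) = 0 := by rw [hBk, hKk]; ring
    push_cast at hcard'
    linarith
  · rw [if_neg hap] at hcard'
    have hx3 : (B - K + 1) * (K - B) ≤ 1 / 4 := by nlinarith [sq_nonneg (B - K + 1 / 2)]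
    push_cast at hcard'
    linarith

/-- the union of overlapping teeth -/
theorem big_sub (d s : ℕ) (rho : ℝ) (X : ℤ) (I : ℕ)
    (hI : ∀ i < I, (s : ℝ) * (rho + 9) < 9 * ((d : ℝ) / 3 - i))
    (h1 : rho * ((d : ℝ) / 3 - I) < X) (h2 : (X : ℝ) < (rho + 9) * ((d : ℝ) / 3 - (s - 1))) :
    ∃ i ≤ I, rho * ((d : ℝ) / 3 - i) < X ∧ (X : ℝ) < (rho + 9) * ((d : ℝ) / 3 - i - (s - 1)) := by
  induction I with
  | zero =>
    refine ⟨0, le_refl _, h1, ?_⟩
    simpa using h2
  | succ I ih =>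
    by_cases h3 : (X : ℝ) < (rho + 9) * ((d : ℝ) / 3 - ((I + 1 : ℕ) : ℝ) - (s - 1))
    · exact ⟨I + 1, le_refl _, h1, h3⟩
    · push Not at h3
      rcases lt_or_ge (rho * ((d : ℝ) / 3 - I)) X with h4 | h4
      · obtain ⟨i, hi, h5⟩ := ih (fun i hi => hI i (by omega)) h4
        exact ⟨i, by omega, h5⟩
      · -- the teeth I and I + 1 touch: X = rho (t - I)
        exfalso
        have h5 := hI I (by omega)
        push_cast at h3
        have h6 : (rho + 9) * ((d : ℝ) / 3 - (I + 1) - (s - 1)) =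
          rho * ((d : ℝ) / 3 - I) + (9 * ((d : ℝ) / 3 - I) - s * (rho + 9)) := by ring
        linarith

/-- the lower bound -/
theorem lower (d s : ℕ) (rho : ℝ) (h0 : 0 ≤ rho) (hs : 1 ≤ s) (hA : (s : ℝ) * (rho + 9) ≤ 3 * d)
    (S : Finset (ℤ × ℤ))
    (hS : ∀ (j : ℕ) (n : ℤ), 3 * j < d → InT d rho j n → ((j : ℤ), n) ∈ S) :
    Lst d s rho - 9 / 8 - (⌈(rho + 9) / 9⌉₊ : ℝ) ≤ ((lnv S s).card : ℝ) := by
  classical
  have hc : 0 < rho + 9 := by linarith
  set A : ℝ := (d : ℝ) / 3 - s * (rho + 9) / 9 with hAdef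
  set B : ℝ := (d : ℝ) / 3 - (s - 1) * (rho + 9) / 9 with hBdef
  have hAB : B = A + (rho + 9) / 9 := by rw [hAdef, hBdef]; ring
  have hA0 : 0 ≤ A := by rw [hAdef]; linarith
  have hB0 : 0 < B := by rw [hAB]; linarith
  set I := ⌈A⌉₊ with hI
  set K := ⌈B⌉₊ with hK
  have hI1 : A ≤ I := Nat.le_ceil A
  have hI2 : (I : ℝ) < A + 1 := Nat.ceil_lt_add_one hA0
  have hK1 : B ≤ K := Nat.le_ceil B
  have hK2 : (K : ℝ) < B + 1 := Nat.ceil_lt_add_one hB0.le
  have hIK : I < K := by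
    have : (I : ℝ) < K := by
      have : (1 : ℝ) ≤ (rho + 9) / 9 := by rw [le_div_iff₀ (by norm_num)]; linarith
      linarith
    exact_mod_cast this
  have hKI : K ≤ I + ⌈(rho + 9) / 9⌉₊ := by
    rw [hK, hAB]
    exact ceil_gap A _
  have hKI' : (K : ℝ) ≤ I + (⌈(rho + 9) / 9⌉₊ : ℝ) := by exact_mod_cast hKI
  -- the separation of the teeth
  have hsep : ∀ i i' : ℕ, I ≤ i → i < i' →
      (rho + 9) * ((d : ℝ) / 3 - i' - (s - 1)) ≤ rho * ((d : ℝ) / 3 - i) := by
    intro i i' hi hii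
    have h1 : (i : ℝ) + 1 ≤ i' := by exact_mod_cast hii
    have h2 : (I : ℝ) ≤ i := by exact_mod_cast hi
    have h3 : (rho + 9) * ((d : ℝ) / 3 - i' - (s - 1)) ≤
        (rho + 9) * ((d : ℝ) / 3 - (i + 1) - (s - 1)) :=
      mul_le_mul_of_nonneg_left (by linarith) hc.le
    have h4 : (rho + 9) * ((d : ℝ) / 3 - (i + 1) - (s - 1)) =
      rho * ((d : ℝ) / 3 - i) + 9 * (A - i) := by rw [hAdef]; ring
    linarith
  have hsub : big d s rho I ∪ sml d s rho I K ⊆ lnv S s := by
    intro X hX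
    rw [Finset.mem_union] at hX
    rcases hX with hX | hX
    · unfold big at hX
      rw [mem_opn] at hX
      have hov : ∀ i < I, (s : ℝ) * (rho + 9) < 9 * ((d : ℝ) / 3 - i) := by
        intro i hi
        rw [hI, Nat.lt_ceil] at hi
        linarith
      obtain ⟨i, _, h3, h4⟩ := big_sub d s rho X I hov hX.1 hX.2
      exact tooth_sub d s rho h0 hs S hS X i h3 h4
    · unfold sml at hX
      rw [Finset.mem_biUnion] at hX
      obtain ⟨i, _, hi⟩ := hX
      unfold tth at hi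
      rw [mem_opn] at hi
      exact tooth_sub d s rho h0 hs S hS X i hi.1 hi.2
  have hdis : Disjoint (big d s rho I) (sml d s rho I K) := by
    rw [Finset.disjoint_left]
    intro X hX hX'
    unfold big at hX
    unfold sml at hX'
    rw [mem_opn] at hX
    rw [Finset.mem_biUnion] at hX'
    obtain ⟨i, hi, hi'⟩ := hX'
    rw [Finset.mem_Ioo] at hi
    unfold tth at hi'
    rw [mem_opn] at hi'
    have := hsep I i (le_refl _) hi.1
    linarith [hX.1, hi'.2]
  have hcard : (big d s rho I).card + (sml d s rho I K).card ≤ (lnv S s).card := by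
    rw [← Finset.card_union_of_disjoint hdis]
    exact Finset.card_le_card hsub
  have hbig : (rho + 9) * ((d : ℝ) / 3 - (s - 1)) - rho * ((d : ℝ) / 3 - I) - 1 ≤
      ((big d s rho I).card : ℝ) := by
    unfold big
    exact card_opn_ge _ _
  have hsml : ∑ i ∈ Finset.Ioo I K, 9 * (B - (i : ℝ)) - ((K : ℝ) - 1 - I) ≤
      ((sml d s rho I K).card : ℝ) := by
    have h1 : (sml d s rho I K).card = ∑ i ∈ Finset.Ioo I K, (tth d s rho i).card := by
      unfold sml
      apply Finset.card_biUnion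
      intro i hi i' hi' hne
      rw [Finset.mem_coe, Finset.mem_Ioo] at hi hi'
      show Disjoint (tth d s rho i) (tth d s rho i')
      rw [Finset.disjoint_left]
      intro X hX hX'
      unfold tth at hX hX'
      rw [mem_opn] at hX hX'
      rcases Nat.lt_or_gt_of_ne hne with h | h
      · have := hsep i i' (by omega) h
        linarith [hX.1, hX'.2]
      · have := hsep i' i (by omega) h
        linarith [hX'.1, hX.2]
    have h2 : ∑ i ∈ Finset.Ioo I K, (9 * (B - (i : ℝ)) - 1) ≤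
        ∑ i ∈ Finset.Ioo I K, ((tth d s rho i).card : ℝ) := by
      apply Finset.sum_le_sum
      intro i _
      have h4 := tooth_len d s rho i
      rw [← hBdef] at h4
      unfold tth
      have h5 := card_opn_ge (rho * ((d : ℝ) / 3 - i)) ((rho + 9) * ((d : ℝ) / 3 - i - (s - 1)))
      linarith
    rw [Finset.sum_sub_distrib] at h2
    have h6 : ∑ i ∈ Finset.Ioo I K, (1 : ℝ) = (K : ℝ) - 1 - I := by
      rw [Finset.sum_const, Nat.card_Ioo, nsmul_eq_mul, mul_one]
      rw [Nat.sub_sub, Nat.cast_sub (by omega)]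
      push_cast
      ring
    rw [h6] at h2
    rw [h1]
    push_cast
    exact h2
  rw [sum_len B I K hIK] at hsml
  have htot := total_len ((d : ℝ) / 3) rho s I K
  rw [← hBdef, ← hAdef] at htot
  have hx1 : 0 < B - K + 1 := by linarith
  have hx3 : 0 ≤ (B - K + 1) * (K - B) := mul_nonneg hx1.le (by linarith)
  have hy3 : (A - I + 1) * (I - A) ≤ 1 / 4 := by nlinarith [sq_nonneg (A - I + 1 / 2)]
  have hL : Lst d s rho = (rho + 9) * ((d : ℝ) / 3 + 1) - s * (rho + 9) ^ 2 / 9 +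
    rho * (rho + 9) / 18 := rfl
  have hcard' : ((big d s rho I).card : ℝ) + ((sml d s rho I K).card : ℝ) ≤
      ((lnv S s).card : ℝ) := by exact_mod_cast hcard
  linarith

/-! ### the rows beyond the multiplicity -/

/-- sum of the lengths of the first `K` teeth -/
theorem sum_len' (B : ℝ) (K : ℕ) :
    ∑ i ∈ Finset.range K, 9 * (B - (i : ℝ)) = 9 * ((K : ℝ) * B - (K : ℝ) * ((K : ℝ) - 1) / 2) := by
  induction K with
  | zero => simp
  | succ K ih =>
    rw [Finset.sum_range_succ, ih]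
    push_cast
    ring

/-- the upper bound for the long columns (`B = d/3 - (s-1) c/9`) -/
theorem upperE (d s : ℕ) (rho : ℝ) (h0 : 0 ≤ rho) (hs : 2 ≤ s)
    (hB : ((s : ℝ) - 1) * (rho + 9) < 3 * d)
    (S : Finset (ℤ × ℤ)) (hS : ∀ q ∈ S, ∃ j : ℕ, q.1 = j ∧ InT d rho j q.2) :
    ((lnv S s).card : ℝ) < 9 / 2 * (((d : ℝ) / 3 - (s - 1) * (rho + 9) / 9) + 1 / 2) ^ 2 +
      ((d : ℝ) / 3 - (s - 1) * (rho + 9) / 9) + 1 := by
  classical
  set B : ℝ := (d : ℝ) / 3 - (s - 1) * (rho + 9) / 9 with hBdef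
  have hB0 : 0 < B := by rw [hBdef]; linarith
  set K := ⌈B⌉₊ with hK
  have hK1 : B ≤ K := Nat.le_ceil B
  have hK2 : (K : ℝ) < B + 1 := Nat.ceil_lt_add_one hB0.le
  have hsub : lnv S s ⊆ (Finset.range K).biUnion fun i => tth d s rho i := by
    intro X hX
    rcases tooth d s rho h0 (by omega) S hS X hX with ⟨i, h1, h2⟩ | ⟨h1, _, _⟩
    · rw [Finset.mem_biUnion]
      refine ⟨i, ?_, ?_⟩
      · rw [Finset.mem_range, hK, Nat.lt_ceil]
        have h3 := tooth_len d s rho i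
        rw [← hBdef] at h3
        have h4 : rho * ((d : ℝ) / 3 - i) < (rho + 9) * ((d : ℝ) / 3 - i - (s - 1)) := h1.trans h2
        linarith
      · unfold tth
        rw [mem_opn]
        exact ⟨h1, h2⟩
    · omega
  have h1 : ((lnv S s).card : ℝ) ≤ ∑ i ∈ Finset.range K, ((tth d s rho i).card : ℝ) := by
    have : (lnv S s).card ≤ ∑ i ∈ Finset.range K, (tth d s rho i).card :=
      (Finset.card_le_card hsub).trans Finset.card_biUnion_le
    exact_mod_cast this
  have h2 : ∑ i ∈ Finset.range K, ((tth d s rho i).card : ℝ) <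
      ∑ i ∈ Finset.range K, (9 * (B - (i : ℝ)) + 1) := by
    apply Finset.sum_lt_sum_of_nonempty
    · rw [Finset.nonempty_range_iff]
      have : 0 < K := Nat.ceil_pos.2 hB0
      omega
    · intro i hi
      rw [Finset.mem_range] at hi
      have h3 : (i : ℝ) < B := by
        rw [← Nat.lt_ceil]
        exact hi
      have h4 := tooth_len d s rho i
      rw [← hBdef] at h4
      unfold tth
      have h5 := card_opn_lt (rho * ((d : ℝ) / 3 - i)) ((rho + 9) * ((d : ℝ) / 3 - i - (s - 1)))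
        (by linarith)
      linarith
  rw [Finset.sum_add_distrib, sum_len', Finset.sum_const, Finset.card_range, nsmul_eq_mul,
    mul_one] at h2
  nlinarith [sq_nonneg ((K : ℝ) - B - 1 / 2)]

/-- the lower bound for the long columns -/
theorem lowerE (d s : ℕ) (rho : ℝ) (h0 : 0 ≤ rho) (hs : 1 ≤ s)
    (hA : 3 * (d : ℝ) ≤ (s : ℝ) * (rho + 9)) (hB : ((s : ℝ) - 1) * (rho + 9) < 3 * d)
    (S : Finset (ℤ × ℤ))
    (hS : ∀ (j : ℕ) (n : ℤ), 3 * j < d → InT d rho j n → ((j : ℤ), n) ∈ S) :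
    9 / 2 * (((d : ℝ) / 3 - (s - 1) * (rho + 9) / 9) ^ 2 +
        ((d : ℝ) / 3 - (s - 1) * (rho + 9) / 9)) -
      ((d : ℝ) / 3 - (s - 1) * (rho + 9) / 9) - 1 < ((lnv S s).card : ℝ) := by
  classical
  have hc : 0 < rho + 9 := by linarith
  set A : ℝ := (d : ℝ) / 3 - s * (rho + 9) / 9 with hAdef
  have hA0 : A ≤ 0 := by rw [hAdef]; linarith
  set B : ℝ := (d : ℝ) / 3 - (s - 1) * (rho + 9) / 9 with hBdef
  have hB0 : 0 < B := by rw [hBdef]; linarith
  set K := ⌈B⌉₊ with hK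
  have hK1 : B ≤ K := Nat.le_ceil B
  have hK2 : (K : ℝ) < B + 1 := Nat.ceil_lt_add_one hB0.le
  have hsep : ∀ i i' : ℕ, i < i' →
      (rho + 9) * ((d : ℝ) / 3 - i' - (s - 1)) ≤ rho * ((d : ℝ) / 3 - i) := by
    intro i i' hii
    have h1 : (i : ℝ) + 1 ≤ i' := by exact_mod_cast hii
    have h2 : (0 : ℝ) ≤ i := by positivity
    have h3 : (rho + 9) * ((d : ℝ) / 3 - i' - (s - 1)) ≤
        (rho + 9) * ((d : ℝ) / 3 - (i + 1) - (s - 1)) :=
      mul_le_mul_of_nonneg_left (by linarith) hc.le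
    have h4 : (rho + 9) * ((d : ℝ) / 3 - (i + 1) - (s - 1)) =
      rho * ((d : ℝ) / 3 - i) + 9 * (A - i) := by rw [hAdef]; ring
    linarith
  have hsub : ((Finset.range K).biUnion fun i => tth d s rho i) ⊆ lnv S s := by
    intro X hX
    rw [Finset.mem_biUnion] at hX
    obtain ⟨i, _, hi⟩ := hX
    unfold tth at hi
    rw [mem_opn] at hi
    exact tooth_sub d s rho h0 hs S hS X i hi.1 hi.2
  have hcard : ((Finset.range K).biUnion fun i => tth d s rho i).card =
      ∑ i ∈ Finset.range K, (tth d s rho i).card := by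
    apply Finset.card_biUnion
    intro i _ i' _ hne
    show Disjoint (tth d s rho i) (tth d s rho i')
    rw [Finset.disjoint_left]
    intro X hX hX'
    unfold tth at hX hX'
    rw [mem_opn] at hX hX'
    rcases Nat.lt_or_gt_of_ne hne with h | h
    · have := hsep i i' h
      linarith [hX.1, hX'.2]
    · have := hsep i' i h
      linarith [hX'.1, hX.2]
  have h1 : ∑ i ∈ Finset.range K, ((tth d s rho i).card : ℝ) ≤ ((lnv S s).card : ℝ) := by
    have := Finset.card_le_card hsub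
    rw [hcard] at this
    exact_mod_cast this
  have h2 : ∑ i ∈ Finset.range K, (9 * (B - (i : ℝ)) - 1) ≤
      ∑ i ∈ Finset.range K, ((tth d s rho i).card : ℝ) := by
    apply Finset.sum_le_sum
    intro i _
    have h4 := tooth_len d s rho i
    rw [← hBdef] at h4
    unfold tth
    have h5 := card_opn_ge (rho * ((d : ℝ) / 3 - i)) ((rho + 9) * ((d : ℝ) / 3 - i - (s - 1)))
    linarith
  rw [Finset.sum_sub_distrib, sum_len', Finset.sum_const, Finset.card_range, nsmul_eq_mul,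
    mul_one] at h2
  have h3 : 0 ≤ ((K : ℝ) - B) * (1 - (K - B)) := mul_nonneg (by linarith) (by linarith)
  nlinarith

/-- no rows beyond -/
theorem zero (d s : ℕ) (rho : ℝ) (h0 : 0 ≤ rho) (hs : 2 ≤ s)
    (hB : 3 * (d : ℝ) ≤ ((s : ℝ) - 1) * (rho + 9))
    (S : Finset (ℤ × ℤ)) (hS : ∀ q ∈ S, ∃ j : ℕ, q.1 = j ∧ InT d rho j q.2) :
    lnv S s = ∅ := by
  rw [Finset.eq_empty_iff_forall_notMem]
  intro X hX
  rcases tooth d s rho h0 (by omega) S hS X hX with ⟨i, h1, h2⟩ | ⟨h1, _, _⟩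
  · have h3 := tooth_len d s rho i
    have h4 : rho * ((d : ℝ) / 3 - i) < (rho + 9) * ((d : ℝ) / 3 - i - (s - 1)) := h1.trans h2
    have h5 : (0 : ℝ) ≤ i := by positivity
    linarith
  · omega

end Pool.Agent.Helper80.UN.CNT
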