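import Pool.Agent.Helper80.UN.CNT

/-!
PROJECT UN (MP_d3128a_ag), the final counting lemmas (helper80): the numbers of rows of the triangle
with slope `rho = 3 sqrt n - 9` satisfy the hypotheses of the mover lemma.
-/

set_option autoImplicit false

noncomputable section

namespace Pool.Agent.Helper80.UN.FIN

open Pool.Agent.Helper97.Nag
open Pool.Agent.Helper80.UN.CNT

/-- the number of points by the numbers of rows -/
theorem card_lnv (S : Finset (ℤ × ℤ)) (H : ℕ) (hH : lnv S (H + 1) = ∅) :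
    S.card = ∑ s ∈ Finset.range H, (lnv S (s + 1)).card := by
  classical
  have hr : ∀ X ∈ S.image Prod.snd, (S.filter fun q => q.2 = X).card ≤ H := by
    intro X hX
    by_contra hcon
    push Not at hcon
    have : X ∈ lnv S (H + 1) := by
      unfold lnv
      rw [Finset.mem_filter]
      exact ⟨hX, hcon⟩
    rw [hH] at this
    exact absurd this (Finset.notMem_empty _)
  have h1 : S.card = ∑ X ∈ S.image Prod.snd, (S.filter fun q => q.2 = X).card :=
    Finset.card_eq_sum_card_image Prod.snd S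
  rw [h1]
  have h2 : ∀ X ∈ S.image Prod.snd, (S.filter fun q => q.2 = X).card =
      ∑ s ∈ Finset.range H, if s + 1 ≤ (S.filter fun q => q.2 = X).card then 1 else 0 := by
    intro X hX
    rw [← Finset.sum_filter, Finset.sum_const, smul_eq_mul, mul_one]
    have h3 : (Finset.range H).filter (fun s => s + 1 ≤ (S.filter fun q => q.2 = X).card) =
        Finset.range (S.filter fun q => q.2 = X).card := by
      ext s
      rw [Finset.mem_filter, Finset.mem_range, Finset.mem_range]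
      have := hr X hX
      omega
    rw [h3, Finset.card_range]
  rw [Finset.sum_congr rfl h2, Finset.sum_comm]
  apply Finset.sum_congr rfl
  intro s _
  unfold lnv
  rw [← Finset.sum_filter, Finset.sum_const, smul_eq_mul, mul_one]

theorem sum_tri (n m : ℕ) : ∑ i ∈ Finset.range m, ((n : ℝ) * ((m : ℝ) - i)) = n * ((m + 1).choose 2 : ℕ) := by
  have h1 : (((m + 1).choose 2 : ℕ) : ℝ) = (m + 1) * m / 2 := by
    rw [Nat.cast_choose_two]
    push_cast
    ring
  rw [h1]
  have h2 : ∀ k : ℕ, ∑ i ∈ Finset.range k, ((n : ℝ) * ((m : ℝ) - i)) =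
      n * (k * m - k * (k - 1) / 2) := by
    intro k
    induction k with
    | zero => simp
    | succ k ih =>
      rw [Finset.sum_range_succ, ih]
      push_cast
      ring
  rw [h2]
  ring

/-- no ties for `n` not a square -/
theorem noTie (n d : ℕ) (rho : ℝ) (hn : ¬ IsSquare n) (hrho : rho = 3 * Real.sqrt n - 9) :
    ∀ j : ℕ, 3 * j < d → ∀ k : ℤ, rho * ((d : ℝ) / 3 - j) ≠ k := by
  intro j hj k hk
  have hirr : Irrational (Real.sqrt n) := irrational_sqrt_natCast_iff.2 hn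
  have hj' : (3 : ℝ) * j < d := by exact_mod_cast hj
  have h1 : ((d : ℝ) - 3 * j) ≠ 0 := by linarith
  have h2 : Real.sqrt n = ((3 + (k : ℚ) / ((d : ℚ) - 3 * (j : ℚ)) : ℚ) : ℝ) := by
    push_cast
    rw [hrho] at hk
    field_simp
    linarith
  exact hirr ⟨_, h2.symm⟩

section

variable (n m d : ℕ) (rho : ℝ) (S : Finset (ℤ × ℤ))

/-- the bounds for the rows `s ≤ m` -/
theorem bounds (hn : 10 ≤ n) (hrho : rho = 3 * Real.sqrt n - 9) (h1 : Real.sqrt n * m ≤ d)
    (hS : ∀ q, q ∈ S ↔ ∃ j : ℕ, q.1 = j ∧ InT d rho j q.2) (i : ℕ) (hi : i < m) :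
    ((lnv S (i + 1)).card : ℝ) - n * (m - i) <
      (Real.sqrt n * (d + 3 / 2) - n * (m + 1 / 2)) + (9 / 8 + (⌈Real.sqrt n / 3⌉₊ : ℝ)) ∧
    (Real.sqrt n * (d + 3 / 2) - n * (m + 1 / 2)) - (9 / 8 + (⌈Real.sqrt n / 3⌉₊ : ℝ)) ≤
      ((lnv S (i + 1)).card : ℝ) - n * (m - i) := by
  have hn' : (10 : ℝ) ≤ n := by exact_mod_cast hn
  have hsq : Real.sqrt n ^ 2 = n := Real.sq_sqrt (by positivity)
  have hs3 : 3 ≤ Real.sqrt n := by
    rw [show (3 : ℝ) = Real.sqrt 9 by rw [show (9 : ℝ) = 3 ^ 2 by norm_num]; exact (Real.sqrt_sq (by norm_num)).symm]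
    exact Real.sqrt_le_sqrt (by linarith)
  have h0 : 0 ≤ rho := by rw [hrho]; linarith
  have hi' : ((i : ℝ) + 1) ≤ m := by exact_mod_cast hi
  have hA : ((i + 1 : ℕ) : ℝ) * (rho + 9) ≤ 3 * d := by
    rw [hrho]
    push_cast
    have : ((i : ℝ) + 1) * Real.sqrt n ≤ m * Real.sqrt n :=
      mul_le_mul_of_nonneg_right hi' (Real.sqrt_nonneg _)
    linarith
  have hc9 : (rho + 9) / 9 = Real.sqrt n / 3 := by rw [hrho]; ring
  have hL : Lst d (i + 1) rho = (Real.sqrt n * (d + 3 / 2) - n * (m + 1 / 2)) + n * (m - i) := by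
    unfold Lst
    rw [hrho]
    push_cast
    have e1 : (3 * Real.sqrt n - 9 + 9) * ((d : ℝ) / 3 + 1) -
        ((i : ℝ) + 1) * (3 * Real.sqrt n - 9 + 9) ^ 2 / 9 +
        (3 * Real.sqrt n - 9) * (3 * Real.sqrt n - 9 + 9) / 18 =
        Real.sqrt n * (d + 3) - (i + 1) * Real.sqrt n ^ 2 + Real.sqrt n ^ 2 / 2 -
          3 / 2 * Real.sqrt n := by ring
    rw [e1, hsq]
    ring
  have hu := upper d (i + 1) rho h0 (by omega) hA S (fun q hq => (hS q).1 hq)
  have hl := lower d (i + 1) rho h0 (by omega) hA S (fun j k hj hk => (hS _).2 ⟨j, rfl, hk⟩)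
  rw [hL, hc9] at hu hl
  constructor
  · linarith
  · linarith

/-- the last rows -/
theorem last (hn : 10 ≤ n) (hrho : rho = 3 * Real.sqrt n - 9) (h2 : (d : ℝ) ≤ Real.sqrt n * (m + 1))
    (hS : ∀ q, q ∈ S ↔ ∃ j : ℕ, q.1 = j ∧ InT d rho j q.2) : lnv S (m + 2) = ∅ := by
  have hn' : (10 : ℝ) ≤ n := by exact_mod_cast hn
  have hs3 : 3 ≤ Real.sqrt n := by
    rw [show (3 : ℝ) = Real.sqrt 9 by rw [show (9 : ℝ) = 3 ^ 2 by norm_num]; exact (Real.sqrt_sq (by norm_num)).symm]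
    exact Real.sqrt_le_sqrt (by linarith)
  have h0 : 0 ≤ rho := by rw [hrho]; linarith
  apply zero d (m + 2) rho h0 (by omega) _ S (fun q hq => (hS q).1 hq)
  rw [hrho]
  push_cast
  linarith

/-- the sum of all the defects -/
theorem total (hS2 : lnv S (m + 2) = ∅) (hcard : S.card = (d + 2).choose 2) :
    ∑ i ∈ Finset.range m, (((lnv S (i + 1)).card : ℝ) - n * (m - i)) + ((lnv S (m + 1)).card : ℝ) =
      (((d + 2).choose 2 : ℕ) : ℝ) - n * ((m + 1).choose 2 : ℕ) := by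
  have h1 := card_lnv S (m + 1) hS2
  rw [Finset.sum_range_succ, hcard] at h1
  rw [Finset.sum_sub_distrib, sum_tri, h1]
  push_cast
  ring

/-- UNE: the empty side -/
theorem une (hn : 10 ≤ n) (hm : 1 ≤ m) (hrho : rho = 3 * Real.sqrt n - 9)
    (h1 : Real.sqrt n * m ≤ d) (h2 : (d : ℝ) ≤ Real.sqrt n * (m + 1))
    (hS : ∀ q, q ∈ S ↔ ∃ j : ℕ, q.1 = j ∧ InT d rho j q.2) (hcard : S.card = (d + 2).choose 2)
    (hchi : (((d + 2).choose 2 : ℕ) : ℝ) - n * ((m + 1).choose 2 : ℕ) ≤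
      -(2 * (⌈Real.sqrt n / 3⌉₊ : ℝ) + 9 / 4) * m) :
    ∃ p ≤ n, (∀ i < m, (lnv S (i + 1)).card ≤ n * (m - i) - p) ∧
      (lnv S (m + 1)).card ≤ p * m ∧ lnv S (m + 2) = ∅ := by
  have hn' : (10 : ℝ) ≤ n := by exact_mod_cast hn
  have hm' : (1 : ℝ) ≤ m := by exact_mod_cast hm
  have hsq : Real.sqrt n ^ 2 = n := Real.sq_sqrt (by positivity)
  have hs0 : 0 ≤ Real.sqrt n := Real.sqrt_nonneg _
  have hlast := last n m d rho S hn hrho h2 hS
  have htot := total n m d S hlast hcard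
  set δ : ℝ := Real.sqrt n * (d + 3 / 2) - n * (m + 1 / 2) with hδ
  set Q : ℝ := 9 / 8 + (⌈Real.sqrt n / 3⌉₊ : ℝ) with hQ
  have hQ0 : 9 / 8 ≤ Q := by
    rw [hQ]
    have : (0 : ℝ) ≤ (⌈Real.sqrt n / 3⌉₊ : ℝ) := by positivity
    linarith
  have hb := fun i (hi : i < m) => bounds n m d rho S hn hrho h1 hS i hi
  rw [← hδ, ← hQ] at hb
  set E : ℝ := ((lnv S (m + 1)).card : ℝ) with hE
  have hE0 : 0 ≤ E := by rw [hE]; positivity
  -- the sum is at least m (δ - Q)
  have hsum : (m : ℝ) * (δ - Q) ≤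
      ∑ i ∈ Finset.range m, (((lnv S (i + 1)).card : ℝ) - n * (m - i)) := by
    have : ∑ i ∈ Finset.range m, (δ - Q) ≤
        ∑ i ∈ Finset.range m, (((lnv S (i + 1)).card : ℝ) - n * (m - i)) := by
      apply Finset.sum_le_sum
      intro i hi
      rw [Finset.mem_range] at hi
      exact (hb i hi).2
    rw [Finset.sum_const, Finset.card_range, nsmul_eq_mul] at this
    exact this
  have hchi' : ∑ i ∈ Finset.range m, (((lnv S (i + 1)).card : ℝ) - n * (m - i)) + E ≤
      -(2 * Q) * m := by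
    rw [htot]
    refine hchi.trans (le_of_eq ?_)
    rw [hQ]
    ring
  have hEle : E ≤ m * (-Q - δ) := by
    have e1 : (m : ℝ) * (-Q - δ) = -(2 * Q) * m - m * (δ - Q) := by ring
    rw [e1]
    linarith
  have hQδ : 0 ≤ -Q - δ := by
    by_contra hcon
    push Not at hcon
    have : (m : ℝ) * (-Q - δ) < 0 := mul_neg_of_pos_of_neg (by linarith) hcon
    linarith
  have hpz0 : 0 ≤ ⌊1 - Q - δ⌋ := Int.floor_nonneg.2 (by linarith)
  obtain ⟨p, hp⟩ := Int.eq_ofNat_of_zero_le hpz0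
  have hp1 : (p : ℝ) ≤ 1 - Q - δ := by
    have := Int.floor_le (1 - Q - δ)
    rw [hp] at this
    exact_mod_cast this
  have hp2 : -Q - δ < p := by
    have := Int.sub_one_lt_floor (1 - Q - δ)
    rw [hp] at this
    push_cast at this
    linarith
  have hpn : p ≤ n := by
    have h3 : -δ ≤ n / 2 := by
      rw [hδ]
      have : Real.sqrt n * (Real.sqrt n * m) ≤ Real.sqrt n * d := mul_le_mul_of_nonneg_left h1 hs0
      nlinarith
    have : (p : ℝ) ≤ n := by linarith
    exact_mod_cast this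
  refine ⟨p, hpn, ?_, ?_, hlast⟩
  · intro i hi
    have h3 := (hb i hi).1
    have h4 : ((lnv S (i + 1)).card : ℝ) - n * (m - i) < 1 - p := by linarith
    have h5 : ((m - i : ℕ) : ℝ) = (m : ℝ) - i := by rw [Nat.cast_sub hi.le]
    have h6 : ((lnv S (i + 1)).card : ℝ) + p < ((n * (m - i) : ℕ) : ℝ) + 1 := by
      push_cast
      rw [h5]
      linarith
    have h7 : (lnv S (i + 1)).card + p < n * (m - i) + 1 := by exact_mod_cast h6
    omega
  · have h3 : E ≤ (p : ℝ) * m := by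
      refine hEle.trans ?_
      rw [mul_comm]
      exact mul_le_mul_of_nonneg_right hp2.le (by linarith)
    rw [hE] at h3
    exact_mod_cast h3

/-- UNR: the regular side -/
theorem unr (hn : 10 ≤ n) (hm : 1 ≤ m) (hrho : rho = 3 * Real.sqrt n - 9)
    (h1 : Real.sqrt n * m ≤ d) (h2 : (d : ℝ) ≤ Real.sqrt n * (m + 1))
    (hS : ∀ q, q ∈ S ↔ ∃ j : ℕ, q.1 = j ∧ InT d rho j q.2) (hcard : S.card = (d + 2).choose 2)
    (hchi : (2 * (⌈Real.sqrt n / 3⌉₊ : ℝ) + 9 / 4) * m ≤
      (((d + 2).choose 2 : ℕ) : ℝ) - n * ((m + 1).choose 2 : ℕ)) :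
    ∃ p ≤ n, (∀ i < m, n * (m - i) - p ≤ (lnv S (i + 1)).card) ∧
      p * m ≤ (lnv S (m + 1)).card := by
  have hn' : (10 : ℝ) ≤ n := by exact_mod_cast hn
  have hm' : (1 : ℝ) ≤ m := by exact_mod_cast hm
  have hsq : Real.sqrt n ^ 2 = n := Real.sq_sqrt (by positivity)
  have hs0 : 0 ≤ Real.sqrt n := Real.sqrt_nonneg _
  have hlast := last n m d rho S hn hrho h2 hS
  have htot := total n m d S hlast hcard
  set δ : ℝ := Real.sqrt n * (d + 3 / 2) - n * (m + 1 / 2) with hδ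
  set Q : ℝ := 9 / 8 + (⌈Real.sqrt n / 3⌉₊ : ℝ) with hQ
  have hb := fun i (hi : i < m) => bounds n m d rho S hn hrho h1 hS i hi
  rw [← hδ, ← hQ] at hb
  set E : ℝ := ((lnv S (m + 1)).card : ℝ) with hE
  have hE0 : 0 ≤ E := by rw [hE]; positivity
  have hsum : ∑ i ∈ Finset.range m, (((lnv S (i + 1)).card : ℝ) - n * (m - i)) ≤
      (m : ℝ) * (δ + Q) := by
    have : ∑ i ∈ Finset.range m, (((lnv S (i + 1)).card : ℝ) - n * (m - i)) ≤
        ∑ i ∈ Finset.range m, (δ + Q) := by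
      apply Finset.sum_le_sum
      intro i hi
      rw [Finset.mem_range] at hi
      exact (hb i hi).1.le
    rw [Finset.sum_const, Finset.card_range, nsmul_eq_mul] at this
    exact this
  have hchi' : (2 * Q) * m ≤
      ∑ i ∈ Finset.range m, (((lnv S (i + 1)).card : ℝ) - n * (m - i)) + E := by
    rw [htot]
    refine le_trans (le_of_eq ?_) hchi
    rw [hQ]
    ring
  have hEge : (m : ℝ) * (Q - δ) ≤ E := by
    have e1 : (m : ℝ) * (Q - δ) = (2 * Q) * m - m * (δ + Q) := by ring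
    rw [e1]
    linarith
  obtain ⟨p, hp⟩ := Int.eq_ofNat_of_zero_le (le_max_left 0 ⌊Q - δ⌋)
  have hp1 : ⌊Q - δ⌋ ≤ (p : ℤ) := by
    have := le_max_right 0 ⌊Q - δ⌋
    omega
  have hp2 : (p : ℤ) = 0 ∨ (p : ℤ) = ⌊Q - δ⌋ := by
    rcases max_choice (0 : ℤ) ⌊Q - δ⌋ with h | h
    · left; omega
    · right; omega
  refine ⟨p, ?_, ?_, ?_⟩
  · rcases hp2 with h | h
    · have : p = 0 := by exact_mod_cast h
      omega
    · have h3 : -δ ≤ n / 2 - 3 / 2 * Real.sqrt n := by
        rw [hδ]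
        have : Real.sqrt n * (Real.sqrt n * m) ≤ Real.sqrt n * d := mul_le_mul_of_nonneg_left h1 hs0
        nlinarith
      have h4 : (p : ℝ) ≤ Q - δ := by
        have := Int.floor_le (Q - δ)
        rw [← h] at this
        exact_mod_cast this
      have h5 : (⌈Real.sqrt n / 3⌉₊ : ℝ) < Real.sqrt n / 3 + 1 := Nat.ceil_lt_add_one (by positivity)
      have h6 : (p : ℝ) ≤ n := by
        rw [hQ] at h4
        linarith
      exact_mod_cast h6
  · intro i hi
    have h3 := (hb i hi).2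
    have h4 : -((((lnv S (i + 1)).card : ℤ) - n * (m - i) : ℤ)) ≤ ⌊Q - δ⌋ := by
      rw [Int.le_floor]
      push_cast
      linarith
    have h5 : ((m - i : ℕ) : ℤ) = (m : ℤ) - i := by rw [Nat.cast_sub hi.le]
    have h6 : ((n * (m - i) : ℕ) : ℤ) ≤ ((lnv S (i + 1)).card : ℤ) + p := by
      push_cast
      rw [h5]
      linarith
    have h7 : n * (m - i) ≤ (lnv S (i + 1)).card + p := by exact_mod_cast h6
    omega
  · rcases hp2 with h | h
    · have : p = 0 := by exact_mod_cast h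
      rw [this]
      simp
    · have h4 : (p : ℝ) ≤ Q - δ := by
        have := Int.floor_le (Q - δ)
        rw [← h] at this
        exact_mod_cast this
      have h5 : (p : ℝ) * m ≤ E := by
        refine le_trans ?_ hEge
        rw [mul_comm]
        exact mul_le_mul_of_nonneg_left h4 (by linarith)
      rw [hE] at h5
      exact_mod_cast h5

end

end Pool.Agent.Helper80.UN.FIN
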